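import Pool.Agent.H964R2.Core.Main

/-! Roots of `c r^m = 1` and the inequality between traces and degrees, for sections of `O(h)`. -/

set_option autoImplicit false

namespace Pool.Agent.T9h40.Kaw

open Finset Pool.Agent.H964R2.Core

/-- The roots of `c * r ^ m = 1`. -/
theorem rootsetH (c : ℂ) (hc : c ≠ 0) (m : ℕ) (hm : 0 < m) (h : ℕ) :
    ∃ R : Finset ℂ, (∀ r, r ∈ R ↔ c * r ^ m = 1) ∧ R.card = m ∧
      ∑ r ∈ R, (r⁻¹) ^ h = if m ∣ h then (m : ℂ) * c ^ (h / m) else 0 := by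
  classical
  obtain ⟨r0, hr0⟩ := IsAlgClosed.exists_pow_nat_eq (c⁻¹) hm
  have hr00 : r0 ≠ 0 := by
    rintro rfl
    rw [zero_pow hm.ne'] at hr0
    exact inv_ne_zero hc hr0.symm
  set ζ : ℂ := Complex.exp (2 * Real.pi * Complex.I / m) with hζdef
  have hζ : IsPrimitiveRoot ζ m := Complex.isPrimitiveRoot_exp m hm.ne'
  have hζ0 : ζ ≠ 0 := Complex.exp_ne_zero _
  have hinj : Set.InjOn (fun k : ℕ => r0 * ζ ^ k) (Finset.range m) := by
    intro a ha b hb hab
    have h1 : ζ ^ a = ζ ^ b := mul_left_cancel₀ hr00 hab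
    exact hζ.pow_inj (by simpa using ha) (by simpa using hb) h1
  refine ⟨(Finset.range m).image (fun k => r0 * ζ ^ k), ?_, ?_, ?_⟩
  · intro r
    rw [Finset.mem_image]
    constructor
    · rintro ⟨k, _, rfl⟩
      rw [mul_pow, hr0, ← pow_mul, mul_comm k m, pow_mul, hζ.pow_eq_one, one_pow, mul_one,
        mul_inv_cancel₀ hc]
    · intro h
      have h1 : (r / r0) ^ m = 1 := by
        rw [div_pow, hr0, div_inv_eq_mul, mul_comm]
        exact h
      have : NeZero m := ⟨hm.ne'⟩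
      obtain ⟨k, hk, hk2⟩ := hζ.eq_pow_of_pow_eq_one h1
      refine ⟨k, Finset.mem_range.mpr hk, ?_⟩
      rw [hk2]
      field_simp
  · rw [Finset.card_image_of_injOn hinj, Finset.card_range]
  · rw [Finset.sum_image hinj]
    have h2 : ∀ k ∈ Finset.range m, ((r0 * ζ ^ k)⁻¹) ^ h = (r0⁻¹) ^ h * ((ζ⁻¹) ^ h) ^ k := by
      intro k _
      rw [mul_inv, mul_pow, ← inv_pow, ← pow_mul, ← pow_mul, mul_comm k h]
    rw [Finset.sum_congr rfl h2, ← Finset.mul_sum]
    split_ifs with h1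
    · obtain ⟨e, rfl⟩ := h1
      have h3 : (ζ⁻¹) ^ (m * e) = 1 := by
        rw [inv_pow, pow_mul, hζ.pow_eq_one, one_pow, inv_one]
      have h4 : (r0⁻¹) ^ (m * e) = c ^ e := by
        rw [inv_pow, pow_mul, hr0, inv_pow, inv_inv]
      rw [h3, h4, Nat.mul_div_cancel_left e hm]
      simp only [one_pow, Finset.sum_const, Finset.card_range, nsmul_eq_mul, mul_one]
      ring
    · have h3 : (ζ⁻¹) ^ h ≠ 1 := by
        intro h4
        rw [inv_pow, inv_eq_one] at h4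
        exact h1 ((hζ.pow_eq_one_iff_dvd h).mp h4)
      have h4 : ((ζ⁻¹) ^ h) ^ m = 1 := by
        rw [← pow_mul, mul_comm h m, pow_mul, inv_pow, hζ.pow_eq_one, inv_one, one_pow]
      rw [geom_sum_eq h3, h4, sub_self, zero_div, mul_zero]

/-- The main numerical inequality. -/
theorem count_ineqH {K L : Type*} [Fintype K] [Fintype L] (h : ℕ) (lam : K → ℂ) (m : K → ℕ)
    (mu : L → ℂ) (d : L → ℕ) (hlam : ∀ k, ‖lam k‖ = 1) (hm : ∀ k, 0 < m k)
    (hmu : ∀ l, ‖mu l‖ = 1) (hd : ∀ l, 0 < d l)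
    (hc : ∀ t : ℂ, t ^ h ≠ 1 → (univ.filter (fun k => lam k * t ^ m k = 1)).card ≤
      (univ.filter (fun l => mu l * t ^ d l = 1)).card) :
    (∑ k, (m k : ℝ)) - ∑ l, (d l : ℝ) ≤
      (∑ k, if m k ∣ h then (m k : ℂ) * lam k ^ (h / m k) else 0).re -
      (∑ l, if d l ∣ h then (d l : ℂ) * mu l ^ (h / d l) else 0).re := by
  classical
  have hlam0 : ∀ k, lam k ≠ 0 := fun k h0 => by
    have := hlam k; rw [h0, norm_zero] at this; exact zero_ne_one this
  have hmu0 : ∀ k, mu k ≠ 0 := fun k h0 => by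
    have := hmu k; rw [h0, norm_zero] at this; exact zero_ne_one this
  choose R hR1 hR2 hR3 using fun k => rootsetH (lam k) (hlam0 k) (m k) (hm k) h
  choose S hS1 hS2 hS3 using fun l => rootsetH (mu l) (hmu0 l) (d l) (hd l) h
  set F : Finset ℂ := (univ.biUnion R) ∪ (univ.biUnion S) with hF
  have hRF : ∀ k, R k ⊆ F := fun k r hr => by
    rw [hF, mem_union, mem_biUnion]; exact Or.inl ⟨k, mem_univ _, hr⟩
  have hSF : ∀ k, S k ⊆ F := fun k r hr => by
    rw [hF, mem_union, mem_biUnion, mem_biUnion]; exact Or.inr ⟨k, mem_univ _, hr⟩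
  have hnorm : ∀ (c r : ℂ) (j : ℕ), 0 < j → ‖c‖ = 1 → c * r ^ j = 1 → ‖r‖ = 1 := by
    intro c r j hj hc hcr
    have h1 := congrArg norm hcr
    rw [norm_mul, hc, one_mul, norm_pow, norm_one] at h1
    exact (pow_eq_one_iff_of_nonneg (norm_nonneg _) hj.ne').mp h1
  have hFn : ∀ r ∈ F, ‖r‖ = 1 := by
    intro r hr
    rw [hF, mem_union, mem_biUnion, mem_biUnion] at hr
    rcases hr with ⟨k, _, hk⟩ | ⟨k, _, hk⟩
    · exact hnorm _ _ _ (hm k) (hlam k) ((hR1 k r).mp hk)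
    · exact hnorm _ _ _ (hd k) (hmu k) ((hS1 k r).mp hk)
  set α : ℂ → ℕ := fun r => (univ.filter (fun k => lam k * r ^ m k = 1)).card with hα
  set β : ℂ → ℕ := fun r => (univ.filter (fun l => mu l * r ^ d l = 1)).card with hβ
  have e1 : (∑ k, if m k ∣ h then (m k : ℂ) * lam k ^ (h / m k) else 0) =
      ∑ r ∈ F, (α r : ℂ) * (r⁻¹) ^ h := by
    rw [← dsum F R (fun k r => lam k * r ^ m k = 1) hR1 hRF (fun r => (r⁻¹) ^ h)]
    exact Finset.sum_congr rfl (fun k _ => (hR3 k).symm)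
  have e2 : (∑ l, if d l ∣ h then (d l : ℂ) * mu l ^ (h / d l) else 0) =
      ∑ r ∈ F, (β r : ℂ) * (r⁻¹) ^ h := by
    rw [← dsum F S (fun k r => mu k * r ^ d k = 1) hS1 hSF (fun r => (r⁻¹) ^ h)]
    exact Finset.sum_congr rfl (fun k _ => (hS3 k).symm)
  have e3 : (∑ k, (m k : ℂ)) = ∑ r ∈ F, (α r : ℂ) := by
    have := dsum F R (fun k r => lam k * r ^ m k = 1) hR1 hRF (fun _ => 1)
    simp only [mul_one] at this
    rw [← this]
    refine Finset.sum_congr rfl (fun k _ => ?_)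
    rw [Finset.sum_const, hR2 k]; simp
  have e4 : (∑ k, (d k : ℂ)) = ∑ r ∈ F, (β r : ℂ) := by
    have := dsum F S (fun k r => mu k * r ^ d k = 1) hS1 hSF (fun _ => 1)
    simp only [mul_one] at this
    rw [← this]
    refine Finset.sum_congr rfl (fun k _ => ?_)
    rw [Finset.sum_const, hS2 k]; simp
  have e3' : (∑ k, (m k : ℝ)) = ∑ r ∈ F, (α r : ℝ) := by exact_mod_cast e3
  have e4' : (∑ k, (d k : ℝ)) = ∑ r ∈ F, (β r : ℝ) := by exact_mod_cast e4
  rw [e3', e4', ← Complex.sub_re, e1, e2, ← Finset.sum_sub_distrib, ← Finset.sum_sub_distrib,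
    Complex.re_sum]
  refine Finset.sum_le_sum (fun r hr => ?_)
  have e5 : ((α r : ℂ) * (r⁻¹) ^ h - (β r : ℂ) * (r⁻¹) ^ h).re =
      ((α r : ℝ) - β r) * ((r⁻¹) ^ h).re := by
    rw [← sub_mul]
    have : ((α r : ℂ) - (β r : ℂ)) = (((α r : ℝ) - β r : ℝ) : ℂ) := by push_cast; rfl
    rw [this, Complex.re_ofReal_mul]
  rw [e5]
  by_cases h1 : r ^ h = 1
  · rw [inv_pow, h1, inv_one, Complex.one_re, mul_one]
  · have h2 : (α r : ℝ) ≤ β r := by exact_mod_cast hc r h1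
    have h3 : ((r⁻¹) ^ h).re ≤ 1 := by
      refine (Complex.re_le_norm _).trans ?_
      rw [norm_pow, norm_inv, hFn r hr, inv_one, one_pow]
    nlinarith

end Pool.Agent.T9h40.Kaw
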