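import Pool.Agent.T9h40.Kaw.Sym

/-! Invariants of degree two. -/

set_option autoImplicit false

namespace Pool.Agent.T9h40.Kaw

open MvPolynomial Pool.Agent.H964R2.Core

section hom

variable {n c : ℕ} {w : Fin n → ℕ}

/-- the elements of degree two of the ideal -/
theorem mem_sp_two (hw : ∀ i, 0 < w i) (f : Fin c → MvPolynomial (Fin n) ℂ) (δ : Fin c → ℕ)
    (hδ : ∀ j, 2 ≤ δ j) (hf : ∀ j, IsWeightedHomogeneous w (f j) (δ j))
    {p : MvPolynomial (Fin n) ℂ} (hp : IsWeightedHomogeneous w p 2)
    (hpI : p ∈ Ideal.span (Set.range f)) : p ∈ Sp f δ 2 := by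
  have h1 : ∀ x ∈ Ideal.span (Set.range f), ∀ a,
      weightedHomogeneousComponent w 2 (a * x) ∈ Sp f δ 2 := by
    intro x hx
    refine Submodule.span_induction
      (p := fun x _ => ∀ a, weightedHomogeneousComponent w 2 (a * x) ∈ Sp f δ 2) ?_ ?_ ?_ ?_ hx
    · rintro _ ⟨j, rfl⟩ a
      have hC : ∀ b : ℂ, weightedHomogeneousComponent w 2 (C b * f j) ∈ Sp f δ 2 := by
        intro b
        have h2 : IsWeightedHomogeneous w (C b * f j) (0 + δ j) :=
          (isWeightedHomogeneous_C w b).mul (hf j)
        by_cases h3 : δ j = 2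
        · rw [zero_add, h3] at h2
          rw [h2.weightedHomogeneousComponent_same, ← smul_eq_C_mul]
          exact Submodule.smul_mem _ _ (Submodule.subset_span ⟨j, h3, rfl⟩)
        · rw [h2.weightedHomogeneousComponent_ne 2 (by have := hδ j; omega)]
          exact Submodule.zero_mem _
      induction a using MvPolynomial.monomial_add_induction_on with
      | C a => exact hC a
      | monomial_add s b q _ _ ih =>
        rw [add_mul, map_add]
        refine Submodule.add_mem _ ?_ ih
        by_cases hs : s = 0
        · subst hs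
          exact hC b
        · have h2 : IsWeightedHomogeneous w (monomial s b * f j) (Finsupp.weight w s + δ j) :=
            (isWeightedHomogeneous_monomial w s b rfl).mul (hf j)
          have h3 : Finsupp.weight w s ≠ 0 := by
            intro h0
            apply hs
            ext i
            rw [Finsupp.weight_apply, Finsupp.sum_fintype _ _ (by intro i; simp)] at h0
            have h4 := (Finset.sum_eq_zero_iff.mp h0) i (Finset.mem_univ _)
            rw [smul_eq_mul] at h4
            rcases Nat.mul_eq_zero.mp h4 with h5 | h5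
            · exact h5
            · exact absurd h5 (hw i).ne'
          rw [h2.weightedHomogeneousComponent_ne 2 (by have := hδ j; omega)]
          exact Submodule.zero_mem _
    · intro a; simp
    · intro x y _ _ hx hy a
      rw [mul_add, map_add]
      exact Submodule.add_mem _ (hx a) (hy a)
    · intro r x _ hx a
      rw [smul_eq_mul, ← mul_assoc]
      exact hx _
  have h2 := h1 p hpI 1
  rw [one_mul, hp.weightedHomogeneousComponent_same] at h2
  exact h2

/-- the polynomials of given degree are of finite dimension -/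
theorem finite_homog (hw : ∀ i, 0 < w i) (d : ℕ) :
    FiniteDimensional ℂ (weightedHomogeneousSubmodule ℂ w d) := by
  classical
  set T : Set (Fin n →₀ ℕ) := {s | Finsupp.weight w s = d} with hT
  have hTfin : T.Finite := by
    refine (Set.finite_Iic (Finsupp.equivFunOnFinite.symm fun _ : Fin n => d)).subset ?_
    intro s hs i
    have h1 : Finsupp.weight w s = d := hs
    rw [Finsupp.weight_apply, Finsupp.sum_fintype _ _ (by intro i; simp)] at h1
    have h2 : s i • w i ≤ d := by
      rw [← h1]
      exact Finset.single_le_sum (f := fun i => s i • w i) (fun _ _ => Nat.zero_le _)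
        (Finset.mem_univ i)
    rw [smul_eq_mul] at h2
    have h3 := hw i
    change s i ≤ d
    nlinarith
  have h1 : weightedHomogeneousSubmodule ℂ w d ≤
      Submodule.span ℂ ((fun s => monomial s (1 : ℂ)) '' T) := by
    intro p hp
    rw [mem_weightedHomogeneousSubmodule] at hp
    rw [p.as_sum]
    refine Submodule.sum_mem _ fun s hs => ?_
    have h2 : monomial s (coeff s p) = coeff s p • monomial s (1 : ℂ) := by
      rw [smul_monomial, smul_eq_mul, mul_one]
    rw [h2]
    exact Submodule.smul_mem _ _ (Submodule.subset_span ⟨s, hp (mem_support_iff.mp hs), rfl⟩)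
  have h2 : FiniteDimensional ℂ (Submodule.span ℂ ((fun s => monomial s (1 : ℂ)) '' T)) :=
    FiniteDimensional.span_of_finite ℂ (hTfin.image _)
  exact Submodule.finiteDimensional_of_le h1

end hom

section quad

variable {n : ℕ} {w : Fin n → ℕ}

/-- the variables of degree one -/
abbrev I1 (w : Fin n → ℕ) : Type := {i : Fin n // w i = 1}

/-- the quadratic form of a matrix -/
noncomputable def qf (w : Fin n → ℕ) (M : Matrix (I1 w) (I1 w) ℂ) : MvPolynomial (Fin n) ℂ :=
  ∑ i, ∑ j, M i j • (X (i : Fin n) * X (j : Fin n))

lemma qf_add (M N : Matrix (I1 w) (I1 w) ℂ) : qf w (M + N) = qf w M + qf w N := by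
  unfold qf
  simp only [Matrix.add_apply, add_smul, Finset.sum_add_distrib]

lemma qf_smul (c : ℂ) (M : Matrix (I1 w) (I1 w) ℂ) : qf w (c • M) = c • qf w M := by
  unfold qf
  simp only [Matrix.smul_apply, smul_eq_mul, mul_smul, Finset.smul_sum]

lemma qf_hom (M : Matrix (I1 w) (I1 w) ℂ) : IsWeightedHomogeneous w (qf w M) 2 := by
  rw [← mem_weightedHomogeneousSubmodule]
  unfold qf
  refine Submodule.sum_mem _ fun i _ => Submodule.sum_mem _ fun j _ => Submodule.smul_mem _ _ ?_
  rw [mem_weightedHomogeneousSubmodule]
  have h1 := (isWeightedHomogeneous_X ℂ w (i : Fin n)).mul (isWeightedHomogeneous_X ℂ w (j : Fin n))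
  rw [i.2, j.2] at h1
  exact h1

lemma coeff_XX (a b i j : Fin n) :
    coeff (Finsupp.single a 1 + Finsupp.single b 1) (X i * X j : MvPolynomial (Fin n) ℂ) =
      if (i = a ∧ j = b) ∨ (i = b ∧ j = a) then 1 else 0 := by
  classical
  have h1 : (X i * X j : MvPolynomial (Fin n) ℂ) =
      monomial (Finsupp.single i 1 + Finsupp.single j 1) 1 := by
    rw [X, X, monomial_mul, one_mul]
  rw [h1, coeff_monomial]
  congr 1
  apply propext
  constructor
  · intro h
    have hi := DFunLike.congr_fun h i
    have hj := DFunLike.congr_fun h j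
    simp only [Finsupp.add_apply, Finsupp.single_apply] at hi hj
    by_cases e1 : i = a
    · by_cases e2 : j = b
      · exact Or.inl ⟨e1, e2⟩
      · subst e1
        have h2 : Finsupp.single j 1 = Finsupp.single b 1 := add_left_cancel h
        exact absurd (Finsupp.single_left_injective one_ne_zero h2) e2
    · have e3 : i = b := by
        by_contra e3
        rw [if_neg (Ne.symm e1), if_neg (Ne.symm e3)] at hi
        simp at hi
      subst e3
      rw [add_comm (Finsupp.single a 1)] at h
      have h2 : Finsupp.single j 1 = Finsupp.single a 1 := add_left_cancel h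
      exact Or.inr ⟨rfl, Finsupp.single_left_injective one_ne_zero h2⟩
  · rintro (⟨rfl, rfl⟩ | ⟨rfl, rfl⟩)
    · rfl
    · rw [add_comm]

lemma coeff_qf (M : Matrix (I1 w) (I1 w) ℂ) (hM : M.transpose = M) (a b : I1 w) :
    ∃ e : ℂ, e ≠ 0 ∧
      coeff (Finsupp.single (a : Fin n) 1 + Finsupp.single (b : Fin n) 1) (qf w M) = e * M a b := by
  classical
  unfold qf
  simp only [coeff_sum, coeff_smul, coeff_XX, smul_eq_mul]
  by_cases hab : a = b
  · subst hab
    refine ⟨1, one_ne_zero, ?_⟩
    rw [Finset.sum_eq_single a, Finset.sum_eq_single a]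
    · simp
    · intro j _ hj
      rw [if_neg, mul_zero]
      rintro (⟨-, h⟩ | ⟨-, h⟩) <;> exact hj (Subtype.ext h)
    · intro h; exact absurd (Finset.mem_univ _) h
    · intro i _ hi
      apply Finset.sum_eq_zero
      intro j _
      rw [if_neg, mul_zero]
      rintro (⟨h, -⟩ | ⟨h, -⟩) <;> exact hi (Subtype.ext h)
    · intro h; exact absurd (Finset.mem_univ _) h
  · refine ⟨2, two_ne_zero, ?_⟩
    have hba : M b a = M a b := by
      have := congrFun (congrFun hM a) b
      exact this
    have h1 : ∀ i j : I1 w, (M i j * if ((i : Fin n) = a ∧ (j : Fin n) = b) ∨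
        ((i : Fin n) = b ∧ (j : Fin n) = a) then (1 : ℂ) else 0) =
        (if i = a then (if j = b then M i j else 0) else 0) +
          (if i = b then (if j = a then M i j else 0) else 0) := by
      intro i j
      by_cases h1 : i = a
      · by_cases h2 : j = b
        · subst h1 h2
          rw [if_pos (Or.inl ⟨rfl, rfl⟩), if_pos rfl, if_pos rfl, if_neg hab, mul_one, add_zero]
        · rw [if_neg, if_pos h1, if_neg h2, if_neg (by rw [h1]; exact hab), mul_zero, add_zero]
          rintro (⟨-, h⟩ | ⟨h, -⟩)
          · exact h2 (Subtype.ext h)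
          · exact hab (by rw [← h1]; exact Subtype.ext h)
      · rw [if_neg h1, zero_add]
        by_cases h2 : i = b
        · by_cases h3 : j = a
          · subst h2 h3
            rw [if_pos (Or.inr ⟨rfl, rfl⟩), if_pos rfl, if_pos rfl, mul_one]
          · rw [if_neg, if_pos h2, if_neg h3, mul_zero]
            rintro (⟨h, -⟩ | ⟨-, h⟩)
            · exact h1 (Subtype.ext h)
            · exact h3 (Subtype.ext h)
        · rw [if_neg, if_neg h2, mul_zero]
          rintro (⟨h, -⟩ | ⟨h, -⟩)
          · exact h1 (Subtype.ext h)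
          · exact h2 (Subtype.ext h)
    simp only [h1, Finset.sum_add_distrib]
    simp [hba]
    ring

end quad

end Pool.Agent.T9h40.Kaw
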