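import Pool.Agent.T9h40.Kaw.Count

/-! The representations on the spans of variables and relations of a given degree. -/

set_option autoImplicit false

namespace Pool.Agent.T9h40.Kaw

open MvPolynomial Pool.Agent.H964R2.Core

section

variable {n : ℕ} {G : Type} [Group G]

/-- the span of the members of degree `d` of a family -/
noncomputable abbrev Sp {ι : Type} (x : ι → MvPolynomial (Fin n) ℂ) (e : ι → ℕ) (d : ℕ) :
    Submodule ℂ (MvPolynomial (Fin n) ℂ) :=
  Submodule.span ℂ (x '' {i | e i = d})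

lemma sp_stable {ι : Type} (φ : G →* (MvPolynomial (Fin n) ℂ ≃ₐ[ℂ] MvPolynomial (Fin n) ℂ))
    (x : ι → MvPolynomial (Fin n) ℂ) (e : ι → ℕ) (hφ : ∀ g i, φ g (x i) ∈ Sp x e (e i)) (d : ℕ)
    (g : G) : ∀ u ∈ Sp x e d, (φ g).toLinearMap u ∈ Sp x e d := by
  intro u hu
  refine Submodule.span_induction (p := fun u _ => (φ g).toLinearMap u ∈ Sp x e d) ?_ ?_ ?_ ?_ hu
  · rintro _ ⟨i, hi, rfl⟩
    have := hφ g i
    rw [show e i = d from hi] at this
    exact this
  · rw [map_zero]; exact Submodule.zero_mem _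
  · intro a b _ _ ha hb
    rw [map_add]; exact Submodule.add_mem _ ha hb
  · intro c a _ ha
    rw [map_smul]; exact Submodule.smul_mem _ _ ha

/-- the representation on the span -/
noncomputable def rep {ι : Type} (φ : G →* (MvPolynomial (Fin n) ℂ ≃ₐ[ℂ] MvPolynomial (Fin n) ℂ))
    (x : ι → MvPolynomial (Fin n) ℂ) (e : ι → ℕ) (hφ : ∀ g i, φ g (x i) ∈ Sp x e (e i)) (d : ℕ) :
    Representation ℂ G (Sp x e d) where
  toFun g := (φ g).toLinearMap.restrict (sp_stable φ x e hφ d g)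
  map_one' := by
    ext u
    simp
  map_mul' := by
    intro g h
    ext u
    simp

lemma rep_apply {ι : Type} (φ : G →* (MvPolynomial (Fin n) ℂ ≃ₐ[ℂ] MvPolynomial (Fin n) ℂ))
    (x : ι → MvPolynomial (Fin n) ℂ) (e : ι → ℕ) (hφ : ∀ g i, φ g (x i) ∈ Sp x e (e i)) (d : ℕ)
    (g : G) (u : Sp x e d) :
    ((rep φ x e hφ d g u : Sp x e d) : MvPolynomial (Fin n) ℂ) = φ g u := rfl

lemma trace_rep {ι : Type} (φ : G →* (MvPolynomial (Fin n) ℂ ≃ₐ[ℂ] MvPolynomial (Fin n) ℂ))
    (x : ι → MvPolynomial (Fin n) ℂ) (e : ι → ℕ) (hφ : ∀ g i, φ g (x i) ∈ Sp x e (e i)) (d : ℕ)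
    (g : G) {K : Type} [Fintype K] (b : K → MvPolynomial (Fin n) ℂ) (m : K → ℕ) (lam : K → ℂ)
    (hb : LinearIndependent ℂ b) (hTb : ∀ k, φ g (b k) = lam k • b k)
    (hspan : Submodule.span ℂ (b '' {k | m k = d}) = Sp x e d) (j : ℕ) :
    LinearMap.trace ℂ (Sp x e d) (rep φ x e hφ d (g ^ j)) =
      ∑ k, if m k = d then lam k ^ j else 0 := by
  classical
  have hbU : ∀ k : {k // m k = d}, b k ∈ Sp x e d := by
    intro k
    rw [← hspan]
    exact Submodule.subset_span ⟨k, k.2, rfl⟩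
  have hli : LinearIndependent ℂ (fun k : {k // m k = d} => (⟨b k, hbU k⟩ : Sp x e d)) := by
    apply LinearIndependent.of_comp (Sp x e d).subtype
    exact hb.comp _ Subtype.val_injective
  have htop : ⊤ ≤ Submodule.span ℂ (Set.range
      (fun k : {k // m k = d} => (⟨b k, hbU k⟩ : Sp x e d))) := by
    rintro ⟨u, hu⟩ _
    have hu' := hu
    rw [← hspan] at hu'
    have h1 : b '' {k | m k = d} = (Sp x e d).subtype '' (Set.range
        (fun k : {k // m k = d} => (⟨b k, hbU k⟩ : Sp x e d))) := by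
      ext q
      constructor
      · rintro ⟨k, hk, rfl⟩
        exact ⟨⟨b k, hbU ⟨k, hk⟩⟩, ⟨⟨k, hk⟩, rfl⟩, rfl⟩
      · rintro ⟨_, ⟨k, rfl⟩, rfl⟩
        exact ⟨k, k.2, rfl⟩
    rw [h1, Submodule.span_image] at hu'
    obtain ⟨u', hu1, hu2⟩ := hu'
    have : u' = ⟨u, hu⟩ := Subtype.ext hu2
    rw [← this]; exact hu1
  have hpow : ∀ (j : ℕ) (k : K), φ (g ^ j) (b k) = lam k ^ j • b k := by
    intro j
    induction j with
    | zero => intro k; simp
    | succ j ih =>
      intro k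
      rw [pow_succ, map_mul, AlgEquiv.mul_apply, hTb, map_smul, ih, smul_smul, pow_succ, mul_comm]
  have h2 := trace_of_eigenbasis (Module.Basis.mk hli htop) (rep φ x e hφ d (g ^ j))
    (fun k => lam k ^ j) (by
      intro k
      rw [Module.Basis.mk_apply]
      apply Subtype.ext
      rw [rep_apply]
      exact hpow j k)
  rw [h2, ← Finset.sum_filter, ← Finset.sum_subtype_eq_sum_filter]
  refine (Finset.sum_congr ?_ (fun _ _ => rfl))
  ext k; simp

end

/-- **The inequality for every element**: let `(rep_m)` and `(rel_m)` be the representations on the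
variables and the relations of degree `m`. If `g v = t⁻¹ * v` with `v ≠ 0` on the cone implies
`t ^ h = 1`, then `∑ w - ∑ δ ≤ Re ∑_{m | h} m (tr (g ^ (h / m) | U_m) - tr (g ^ (h / m) | F_m))`. -/
theorem trace_ineq {n c : ℕ} (h : ℕ) (hh : 0 < h) (w : Fin n → ℕ) (hw : ∀ i, 0 < w i)
    (f : Fin c → MvPolynomial (Fin n) ℂ) (δ : Fin c → ℕ) (hδ : ∀ j, 0 < δ j)
    (hf : ∀ j, IsWeightedHomogeneous w (f j) (δ j))
    (G : Type) [Group G] [Finite G]
    (φ : G →* (MvPolynomial (Fin n) ℂ ≃ₐ[ℂ] MvPolynomial (Fin n) ℂ))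
    (hφX : ∀ g i, φ g (X i) ∈ Sp (X : Fin n → MvPolynomial (Fin n) ℂ) w (w i))
    (hφf : ∀ g j, φ g (f j) ∈ Sp f δ (δ j))
    (hL : ∀ v : Fin n → ℂ, v ≠ 0 → (∀ j, eval v (f j) = 0) → ∃ (d : ℕ)
      (a b : MvPolynomial (Fin n) ℂ), IsWeightedHomogeneous w a (h * d) ∧
      IsWeightedHomogeneous w b (h * (d + 1)) ∧
      (∀ g, φ g a - a ∈ Ideal.span (Set.range f)) ∧
      (∀ g, φ g b - b ∈ Ideal.span (Set.range f)) ∧ eval v a ≠ 0 ∧ eval v b ≠ 0) (g : G) :
    (∑ i, (w i : ℝ)) - ∑ j, (δ j : ℝ) ≤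
      ∑ m ∈ h.divisors, (m : ℝ) *
        ((LinearMap.trace ℂ _ (rep φ X w hφX m (g ^ (h / m)))).re -
          (LinearMap.trace ℂ _ (rep φ f δ hφf m (g ^ (h / m)))).re) := by
  classical
  have _ := Fintype.ofFinite G
  have hN : 0 < Nat.card G := Nat.card_pos
  have hgN : (φ g) ^ Nat.card G = 1 := by rw [← map_pow, pow_card_eq_one', map_one]
  obtain ⟨K, _, b, m, lam, hb, hTb, hlam, hm, hspan⟩ := exists_adapted (w := w) (φ g) hN hgN
    (X : Fin n → MvPolynomial (Fin n) ℂ) w (fun i => isWeightedHomogeneous_X ℂ w i) (hφX g)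
  obtain ⟨L, _, q, d, mu, hq, hTq, hmu, hd, hspan'⟩ := exists_adapted (w := w) (φ g) hN hgN
    f δ hf (hφf g)
  have hm0 : ∀ k, 0 < m k := fun k => by
    obtain ⟨i, hi⟩ := hm k
    rw [← hi]; exact hw i
  have hd0 : ∀ k, 0 < d k := fun k => by
    obtain ⟨i, hi⟩ := hd k
    rw [← hi]; exact hδ i
  have hhom : ∀ l, IsWeightedHomogeneous w (q l) (d l) := by
    intro l
    have h1 : q l ∈ Submodule.span ℂ (f '' {j | δ j = d l}) := by
      rw [← hspan']; exact Submodule.subset_span ⟨l, rfl, rfl⟩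
    have h2 : Submodule.span ℂ (f '' {j | δ j = d l}) ≤ weightedHomogeneousSubmodule ℂ w (d l) := by
      apply Submodule.span_le.mpr
      rintro _ ⟨i, hi, rfl⟩
      rw [SetLike.mem_coe, mem_weightedHomogeneousSubmodule]
      have := hf i
      rw [show δ i = d l from hi] at this
      exact this
    exact (mem_weightedHomogeneousSubmodule _ _ _ _).mp (h2 h1)
  have hfh : ∀ v : Fin n → ℂ, (∀ l, eval v (q l) = 0) → ∀ j, eval v (f j) = 0 := by
    intro v hv j
    have h1 : f j ∈ Submodule.span ℂ (q '' {l | d l = δ j}) := by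
      rw [hspan']; exact Submodule.subset_span ⟨j, rfl, rfl⟩
    refine Submodule.span_induction (p := fun q _ => eval v q = 0) ?_ ?_ ?_ ?_ h1
    · rintro _ ⟨l, _, rfl⟩; exact hv l
    · simp
    · intro x y _ _ hx hy; rw [map_add, hx, hy, add_zero]
    · intro r x _ hx; rw [smul_eval, hx, mul_zero]
  have hI : ∀ v : Fin n → ℂ, (∀ j, eval v (f j) = 0) →
      ∀ p ∈ Ideal.span (Set.range f), eval v p = 0 := by
    intro v hv p hp
    refine Submodule.span_induction (p := fun q _ => eval v q = 0) ?_ ?_ ?_ ?_ hp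
    · rintro _ ⟨l, rfl⟩; exact hv l
    · simp
    · intro x y _ _ hx hy; rw [map_add, hx, hy, add_zero]
    · intro r x _ hx; rw [smul_eq_mul, map_mul, hx, mul_zero]
  have hcount := count_ineqH h lam m mu d hlam hm0 hmu hd0 (by
    intro t ht
    refine geo (w := w) (φ g) b m lam hb hTb hm0 hspan q d mu hd0 hhom hTq t ?_
    intro v hv hhv hTv
    have hfv := hfh v hhv
    obtain ⟨e, p, p', hp, hp', hp2, hp2', hpv, hpv'⟩ := hL v hv hfv
    have key : ∀ (e : ℕ) (p : MvPolynomial (Fin n) ℂ), IsWeightedHomogeneous w p e →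
        (∀ g, φ g p - p ∈ Ideal.span (Set.range f)) → eval v p ≠ 0 → (t⁻¹) ^ e = 1 := by
      intro e p hp hp2 hpv
      have h1 : eval v (φ g p) = eval v p := by
        have := hI v hfv _ (hp2 g)
        rw [map_sub] at this
        exact sub_eq_zero.mp this
      have h2 : eval v (φ g p) = (t⁻¹) ^ e * eval v p := by
        rw [eval_equiv]
        simp only [hTv]
        exact eval_scale hp _ _
      rw [h1] at h2
      exact (mul_right_cancel₀ hpv (by rw [one_mul]; exact h2)).symm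
    have h1 := key (h * e) p hp hp2 hpv
    have h2 := key (h * (e + 1)) p' hp' hp2' hpv'
    rw [mul_add, mul_one, pow_add, h1, one_mul, inv_pow, inv_eq_one] at h2
    exact ht h2)
  -- degrees
  have hw2 : ∑ i, w i ≤ ∑ k, m k := sum_deg_le m w (fun d =>
    card_le b m (X : Fin n → MvPolynomial (Fin n) ℂ) w (linearIndependent_X _ _) d
      (hspan d).symm.le)
  have hd3 : ∑ l, d l ≤ ∑ j, δ j := sum_deg_le δ d (fun e =>
    card_le f δ q d hq e (hspan' e).le)
  have h5 : (∑ i, (w i : ℝ)) ≤ ∑ k, (m k : ℝ) := by exact_mod_cast hw2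
  have h6 : (∑ l, (d l : ℝ)) ≤ ∑ j, (δ j : ℝ) := by exact_mod_cast hd3
  -- traces
  have htr : ∀ {K : Type} [Fintype K] (m : K → ℕ) (lam : K → ℂ),
      (∑ k, if m k ∣ h then (m k : ℂ) * lam k ^ (h / m k) else 0) =
        ∑ a ∈ h.divisors, (a : ℂ) * ∑ k, if m k = a then lam k ^ (h / a) else 0 := by
    intro K _ m lam
    simp only [Finset.mul_sum]
    rw [Finset.sum_comm]
    refine Finset.sum_congr rfl fun k _ => ?_
    by_cases hk : m k ∣ h
    · rw [if_pos hk, Finset.sum_eq_single (m k)]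
      · rw [if_pos rfl]
      · intro a _ ha
        rw [if_neg (Ne.symm ha), mul_zero]
      · intro ha
        exact absurd (Nat.mem_divisors.mpr ⟨hk, hh.ne'⟩) ha
    · rw [if_neg hk]
      symm
      apply Finset.sum_eq_zero
      intro a ha
      rw [if_neg, mul_zero]
      rintro rfl
      exact hk (Nat.dvd_of_mem_divisors ha)
  have e1 : (∑ k, if m k ∣ h then (m k : ℂ) * lam k ^ (h / m k) else 0).re =
      ∑ a ∈ h.divisors, (a : ℝ) * (LinearMap.trace ℂ _ (rep φ X w hφX a (g ^ (h / a)))).re := by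
    rw [htr m lam, Complex.re_sum]
    refine Finset.sum_congr rfl fun a _ => ?_
    rw [trace_rep φ X w hφX a g b m lam hb hTb (hspan a) (h / a)]
    rw [show (a : ℂ) = ((a : ℝ) : ℂ) by push_cast; rfl, Complex.re_ofReal_mul]
  have e2 : (∑ l, if d l ∣ h then (d l : ℂ) * mu l ^ (h / d l) else 0).re =
      ∑ a ∈ h.divisors, (a : ℝ) * (LinearMap.trace ℂ _ (rep φ f δ hφf a (g ^ (h / a)))).re := by
    rw [htr d mu, Complex.re_sum]
    refine Finset.sum_congr rfl fun a _ => ?_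
    rw [trace_rep φ f δ hφf a g q d mu hq hTq (hspan' a) (h / a)]
    rw [show (a : ℂ) = ((a : ℝ) : ℂ) by push_cast; rfl, Complex.re_ofReal_mul]
  rw [e1, e2, ← Finset.sum_sub_distrib] at hcount
  simp only [mul_sub]
  linarith

end Pool.Agent.T9h40.Kaw
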