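import Pool.Agent.T9h40.Kaw.Rep

/-! Averages of `tr (g)` and `tr (g ^ 2)`. -/

set_option autoImplicit false

namespace Pool.Agent.T9h40.Kaw

open Pool.Agent.H964R2.Core

variable {G : Type} [Group G] [Fintype G]

theorem avg_eq {V : Type*} [AddCommGroup V] [Module ℂ V] [FiniteDimensional ℂ V]
    (ρ : Representation ℂ G V) :
    ∑ g, LinearMap.trace ℂ V (ρ g) = (Fintype.card G : ℂ) * Module.finrank ℂ ρ.invariants := by
  classical
  have hG : (Fintype.card G : ℂ) ≠ 0 := by exact_mod_cast Fintype.card_ne_zero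
  let _inst : Invertible (Fintype.card G : ℂ) := invertibleOfNonzero hG
  have h1 := (Representation.isProj_averageMap ρ).trace
  have h2 : LinearMap.trace ℂ V ρ.averageMap =
      (Fintype.card G : ℂ)⁻¹ * ∑ g, LinearMap.trace ℂ V (ρ g) := by
    rw [Representation.averageMap, GroupAlgebra.average]
    simp [map_sum]
  rw [h2] at h1
  rw [← h1, ← mul_assoc, mul_inv_cancel₀ hG, one_mul]

theorem avg_pow {V : Type*} [AddCommGroup V] [Module ℂ V] [FiniteDimensional ℂ V]
    (ρ : Representation ℂ G V) {k : ℕ} (hk : (Nat.card G).Coprime k) :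
    ∑ g, LinearMap.trace ℂ V (ρ (g ^ k)) = (Fintype.card G : ℂ) * Module.finrank ℂ ρ.invariants := by
  rw [← avg_eq ρ]
  exact Equiv.sum_comp (powCoprime hk) (fun g => LinearMap.trace ℂ V (ρ g))

section matrices

variable {I : Type} [Fintype I] [DecidableEq I]

/-- the action `M ↦ A M Aᵀ` on matrices. -/
def conjRep (A : G →* Matrix I I ℂ) : Representation ℂ G (Matrix I I ℂ) where
  toFun g :=
    { toFun := fun M => A g * M * (A g).transpose
      map_add' := fun M N => by rw [mul_add, add_mul]
      map_smul' := fun c M => by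
        rw [RingHom.id_apply, Matrix.mul_smul, Matrix.smul_mul] }
  map_one' := by
    apply LinearMap.ext
    intro M
    simp
  map_mul' := by
    intro g h
    apply LinearMap.ext
    intro M
    simp only [map_mul, Matrix.transpose_mul, LinearMap.coe_mk, AddHom.coe_mk,
      Module.End.mul_apply]
    simp only [mul_assoc]

omit [Fintype G] in
lemma conjRep_apply (A : G →* Matrix I I ℂ) (g : G) (M : Matrix I I ℂ) :
    conjRep A g M = A g * M * (A g).transpose := rfl

/-- transposition as a linear map -/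
def tau (I : Type) : Matrix I I ℂ →ₗ[ℂ] Matrix I I ℂ where
  toFun M := M.transpose
  map_add' M N := Matrix.transpose_add M N
  map_smul' c M := Matrix.transpose_smul c M

lemma tr_basis (f : Matrix I I ℂ →ₗ[ℂ] Matrix I I ℂ) :
    LinearMap.trace ℂ _ f = ∑ i, ∑ j, f (Matrix.single i j 1) i j := by
  rw [LinearMap.trace_eq_matrix_trace ℂ (Matrix.stdBasis ℂ I I), Matrix.trace,
    Fintype.sum_prod_type]
  refine Finset.sum_congr rfl fun i _ => Finset.sum_congr rfl fun j _ => ?_
  rw [Matrix.diag_apply, LinearMap.toMatrix_apply, Matrix.stdBasis_eq_single]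
  rfl

lemma single_apply' (A B : Matrix I I ℂ) (i j k l : I) :
    (A * Matrix.single i j (1 : ℂ) * B : Matrix I I ℂ) k l = A k i * B j l := by
  rw [Matrix.mul_apply, Finset.sum_eq_single j]
  · rw [Matrix.mul_single_apply_same]
    ring
  · intro b _ hb
    rw [Matrix.mul_single_apply_of_ne _ _ _ _ _ hb, zero_mul]
  · intro h
    exact absurd (Finset.mem_univ _) h

omit [Fintype G] in
lemma tr_tau (A : G →* Matrix I I ℂ) (g : G) :
    LinearMap.trace ℂ _ (tau I ∘ₗ conjRep A g) = (A (g ^ 2)).trace := by
  rw [tr_basis, map_pow, pow_two, Matrix.trace]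
  refine Finset.sum_congr rfl fun i _ => ?_
  rw [Matrix.diag_apply, Matrix.mul_apply]
  refine Finset.sum_congr rfl fun j _ => ?_
  rw [LinearMap.comp_apply, conjRep_apply]
  change (A g * Matrix.single i j (1 : ℂ) * (A g).transpose : Matrix I I ℂ).transpose i j = _
  rw [Matrix.transpose_apply, single_apply', Matrix.transpose_apply]
  ring

/-- the symmetric invariant matrices. -/
def symInv (A : G →* Matrix I I ℂ) : Submodule ℂ (Matrix I I ℂ) where
  carrier := {M | M.transpose = M ∧ ∀ g, A g * M * (A g).transpose = M}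
  zero_mem' := ⟨Matrix.transpose_zero, fun g => by simp⟩
  add_mem' := by
    rintro M N ⟨h1, h2⟩ ⟨h3, h4⟩
    exact ⟨by rw [Matrix.transpose_add, h1, h3], fun g => by rw [mul_add, add_mul, h2, h4]⟩
  smul_mem' := by
    rintro c M ⟨h1, h2⟩
    exact ⟨by rw [Matrix.transpose_smul, h1], fun g => by
      rw [Matrix.mul_smul, Matrix.smul_mul, h2]⟩

/-- the sum of the `tr (A (g ^ 2))` -/
theorem avg_sq (A : G →* Matrix I I ℂ) :
    ∑ g, (A (g ^ 2)).trace = (Fintype.card G : ℂ) *
      (2 * Module.finrank ℂ (symInv A) - Module.finrank ℂ (conjRep A).invariants) := by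
  classical
  have hG : (Fintype.card G : ℂ) ≠ 0 := by exact_mod_cast Fintype.card_ne_zero
  let _inst : Invertible (Fintype.card G : ℂ) := invertibleOfNonzero hG
  set P := (conjRep A).averageMap with hP
  have hPproj := Representation.isProj_averageMap (conjRep A)
  have hcomm : ∀ g M, (conjRep A g M).transpose = conjRep A g M.transpose := by
    intro g M
    rw [conjRep_apply, conjRep_apply, Matrix.transpose_mul, Matrix.transpose_mul,
      Matrix.transpose_transpose, mul_assoc]
  have hPf : ∀ M, P M = (Fintype.card G : ℂ)⁻¹ • ∑ g, conjRep A g M := by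
    intro M
    rw [hP, Representation.averageMap, GroupAlgebra.average]
    simp [map_sum, LinearMap.sum_apply]
  have hPT : ∀ M : Matrix I I ℂ, (P M).transpose = P M.transpose := by
    intro M
    rw [hPf, hPf, Matrix.transpose_smul, Matrix.transpose_sum]
    congr 1
    exact Finset.sum_congr rfl fun g _ => hcomm g M
  set Q : Matrix I I ℂ →ₗ[ℂ] Matrix I I ℂ := (2⁻¹ : ℂ) • (P + tau I ∘ₗ P) with hQ
  have hQa : ∀ M, Q M = (2⁻¹ : ℂ) • (P M + (P M).transpose) := fun M => rfl
  have hQproj : LinearMap.IsProj (symInv A) Q := by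
    constructor
    · intro M
      rw [hQa]
      apply Submodule.smul_mem
      have hM : P M ∈ (conjRep A).invariants := hPproj.map_mem M
      have hM2 : (P M).transpose ∈ (conjRep A).invariants := by
        intro g
        rw [← hcomm, hM g]
      refine ⟨by rw [Matrix.transpose_add, Matrix.transpose_transpose, add_comm], fun g => ?_⟩
      have h1 := hM g
      have h2 := hM2 g
      rw [conjRep_apply] at h1 h2
      rw [mul_add, add_mul, h1, h2]
    · rintro M ⟨h1, h2⟩
      have h3 : P M = M := hPproj.map_id M h2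
      rw [hQa, h3, h1, ← two_smul ℂ M, smul_smul, inv_mul_cancel₀ two_ne_zero, one_smul]
  have h1 := hQproj.trace
  have h2 := hPproj.trace
  have h3 : LinearMap.trace ℂ _ (tau I ∘ₗ P) =
      (Fintype.card G : ℂ)⁻¹ * ∑ g, (A (g ^ 2)).trace := by
    have h4 : tau I ∘ₗ P = (Fintype.card G : ℂ)⁻¹ • ∑ g, tau I ∘ₗ conjRep A g := by
      apply LinearMap.ext
      intro M
      rw [LinearMap.comp_apply, hPf, map_smul, map_sum, LinearMap.smul_apply, LinearMap.sum_apply]
      rfl
    rw [h4, map_smul, map_sum, smul_eq_mul]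
    congr 1
    exact Finset.sum_congr rfl fun g _ => tr_tau A g
  rw [hQ, map_smul, map_add, h2, h3, smul_eq_mul] at h1
  have h5 : ∑ g, (A (g ^ 2)).trace = (Fintype.card G : ℂ) *
      (2 * (2⁻¹ * (Module.finrank ℂ (conjRep A).invariants +
        (Fintype.card G : ℂ)⁻¹ * ∑ g, (A (g ^ 2)).trace)) -
        Module.finrank ℂ (conjRep A).invariants) := by
    field_simp
    ring
  rw [h1] at h5
  exact h5

end matrices

end Pool.Agent.T9h40.Kaw
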