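import Pool.Agent.T9h40.Kaw.Quad

/-! The number of invariants of degree two. -/

set_option autoImplicit false

namespace Pool.Agent.T9h40.Kaw

open MvPolynomial Pool.Agent.H964R2.Core

section

variable {n : ℕ} {w : Fin n → ℕ} {G : Type} [Group G]

/-- the variables of degree one as a basis -/
noncomputable def bX (w : Fin n → ℕ) :
    Module.Basis (I1 w) ℂ (Sp (X : Fin n → MvPolynomial (Fin n) ℂ) w 1) :=
  Module.Basis.mk (v := fun i : I1 w => (⟨X (i : Fin n), Submodule.subset_span ⟨i, i.2, rfl⟩⟩ :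
      Sp (X : Fin n → MvPolynomial (Fin n) ℂ) w 1))
    (by
      apply LinearIndependent.of_comp (Sp (X : Fin n → MvPolynomial (Fin n) ℂ) w 1).subtype
      exact (linearIndependent_X (Fin n) ℂ).comp _ Subtype.val_injective)
    (by
      rintro ⟨u, hu⟩ _
      have hu' := hu
      have h1 : (X : Fin n → MvPolynomial (Fin n) ℂ) '' {i | w i = 1} =
          (Sp (X : Fin n → MvPolynomial (Fin n) ℂ) w 1).subtype '' (Set.range
          (fun i : I1 w => (⟨X (i : Fin n), Submodule.subset_span ⟨i, i.2, rfl⟩⟩ :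
            Sp (X : Fin n → MvPolynomial (Fin n) ℂ) w 1))) := by
        ext q
        constructor
        · rintro ⟨k, hk, rfl⟩
          exact ⟨_, ⟨⟨k, hk⟩, rfl⟩, rfl⟩
        · rintro ⟨_, ⟨k, rfl⟩, rfl⟩
          exact ⟨k, k.2, rfl⟩
      unfold Sp at hu'
      rw [h1, Submodule.span_image] at hu'
      obtain ⟨u', hu1, hu2⟩ := hu'
      have : u' = ⟨u, hu⟩ := Subtype.ext hu2
      rw [← this]; exact hu1)

lemma bX_apply (i : I1 w) : ((bX w i : Sp (X : Fin n → MvPolynomial (Fin n) ℂ) w 1) :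
    MvPolynomial (Fin n) ℂ) = X (i : Fin n) := by
  rw [bX, Module.Basis.mk_apply]

/-- the matrices of the action on the variables of degree one -/
noncomputable def mat (φ : G →* (MvPolynomial (Fin n) ℂ ≃ₐ[ℂ] MvPolynomial (Fin n) ℂ))
    (hφX : ∀ g i, φ g (X i) ∈ Sp (X : Fin n → MvPolynomial (Fin n) ℂ) w (w i)) :
    G →* Matrix (I1 w) (I1 w) ℂ :=
  ((LinearMap.toMatrixAlgEquiv (bX w)).toAlgHom.toRingHom.toMonoidHom).comp (rep φ X w hφX 1)

lemma mat_apply (φ : G →* (MvPolynomial (Fin n) ℂ ≃ₐ[ℂ] MvPolynomial (Fin n) ℂ))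
    (hφX : ∀ g i, φ g (X i) ∈ Sp (X : Fin n → MvPolynomial (Fin n) ℂ) w (w i)) (g : G) :
    mat φ hφX g = LinearMap.toMatrixAlgEquiv (bX w) (rep φ X w hφX 1 g) := rfl

lemma trace_mat (φ : G →* (MvPolynomial (Fin n) ℂ ≃ₐ[ℂ] MvPolynomial (Fin n) ℂ))
    (hφX : ∀ g i, φ g (X i) ∈ Sp (X : Fin n → MvPolynomial (Fin n) ℂ) w (w i)) (g : G) :
    (mat φ hφX g).trace = LinearMap.trace ℂ _ (rep φ X w hφX 1 g) := by
  rw [LinearMap.trace_eq_matrix_trace ℂ (bX w)]
  rfl

lemma phi_X (φ : G →* (MvPolynomial (Fin n) ℂ ≃ₐ[ℂ] MvPolynomial (Fin n) ℂ))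
    (hφX : ∀ g i, φ g (X i) ∈ Sp (X : Fin n → MvPolynomial (Fin n) ℂ) w (w i)) (g : G)
    (j : I1 w) : φ g (X (j : Fin n)) = ∑ i, mat φ hφX g i j • (X (i : Fin n) :
      MvPolynomial (Fin n) ℂ) := by
  have h1 := (bX w).sum_repr (rep φ X w hφX 1 g (bX w j))
  have h2 := congrArg Subtype.val h1
  rw [rep_apply, bX_apply] at h2
  rw [← h2]
  rw [Submodule.coe_sum]
  refine Finset.sum_congr rfl fun i _ => ?_
  rw [Submodule.coe_smul, bX_apply]
  congr 1
  rw [mat_apply, LinearMap.toMatrixAlgEquiv_apply]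

lemma phi_qf (φ : G →* (MvPolynomial (Fin n) ℂ ≃ₐ[ℂ] MvPolynomial (Fin n) ℂ))
    (hφX : ∀ g i, φ g (X i) ∈ Sp (X : Fin n → MvPolynomial (Fin n) ℂ) w (w i)) (g : G)
    (M : Matrix (I1 w) (I1 w) ℂ) :
    φ g (qf w M) = qf w (mat φ hφX g * M * (mat φ hφX g).transpose) := by
  unfold qf
  simp only [map_sum, map_smul, map_mul, phi_X φ hφX g, Matrix.mul_apply, Matrix.transpose_apply]
  have h1 : ∀ k l : I1 w, (M k l • ((∑ i, mat φ hφX g i k • (X (i : Fin n) :
      MvPolynomial (Fin n) ℂ)) * ∑ i, mat φ hφX g i l • (X (i : Fin n) :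
      MvPolynomial (Fin n) ℂ))) = ∑ i, ∑ j, (mat φ hφX g i k * M k l * mat φ hφX g j l) •
        (X (i : Fin n) * X (j : Fin n) : MvPolynomial (Fin n) ℂ) := by
    intro k l
    rw [Finset.sum_mul_sum, Finset.smul_sum]
    refine Finset.sum_congr rfl fun i _ => ?_
    rw [Finset.smul_sum]
    refine Finset.sum_congr rfl fun j _ => ?_
    rw [smul_mul_smul_comm, smul_smul]
    congr 1
    ring
  simp only [h1]
  rw [show (∑ x : I1 w, ∑ x1 : I1 w, ∑ i : I1 w, ∑ j : I1 w,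
      (mat φ hφX g i x * M x x1 * mat φ hφX g j x1) • (X (i : Fin n) * X (j : Fin n) :
        MvPolynomial (Fin n) ℂ)) = ∑ i : I1 w, ∑ j : I1 w, ∑ x1 : I1 w, ∑ x : I1 w,
      (mat φ hφX g i x * M x x1 * mat φ hφX g j x1) • (X (i : Fin n) * X (j : Fin n) :
        MvPolynomial (Fin n) ℂ) from ?_]
  · refine Finset.sum_congr rfl fun i _ => Finset.sum_congr rfl fun j _ => ?_
    rw [Finset.sum_smul]
    refine Finset.sum_congr rfl fun l _ => ?_
    rw [Finset.sum_mul, Finset.sum_smul]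
  · rw [Finset.sum_comm]
    have h2 : ∀ x1 : I1 w, (∑ x : I1 w, ∑ i : I1 w, ∑ j : I1 w,
        (mat φ hφX g i x * M x x1 * mat φ hφX g j x1) • (X (i : Fin n) * X (j : Fin n) :
        MvPolynomial (Fin n) ℂ)) = ∑ i : I1 w, ∑ j : I1 w, ∑ x : I1 w,
        (mat φ hφX g i x * M x x1 * mat φ hφX g j x1) • (X (i : Fin n) * X (j : Fin n) :
        MvPolynomial (Fin n) ℂ) := by
      intro x1
      rw [Finset.sum_comm]
      refine Finset.sum_congr rfl fun i _ => ?_
      rw [Finset.sum_comm]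
    simp only [h2]
    rw [Finset.sum_comm]
    refine Finset.sum_congr rfl fun i _ => ?_
    rw [Finset.sum_comm]

/-- the map `(M, u) ↦ qf M + u` -/
noncomputable def comb (φ : G →* (MvPolynomial (Fin n) ℂ ≃ₐ[ℂ] MvPolynomial (Fin n) ℂ))
    (hφX : ∀ g i, φ g (X i) ∈ Sp (X : Fin n → MvPolynomial (Fin n) ℂ) w (w i)) :
    (symInv (mat φ hφX) × (rep φ X w hφX 2).invariants) →ₗ[ℂ] MvPolynomial (Fin n) ℂ where
  toFun p := qf w (p.1 : Matrix (I1 w) (I1 w) ℂ) + ((p.2 : Sp X w 2) : MvPolynomial (Fin n) ℂ)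
  map_add' p q := by
    simp only [Prod.fst_add, Prod.snd_add, Submodule.coe_add, qf_add]
    abel
  map_smul' c p := by
    simp only [Prod.smul_fst, Prod.smul_snd, Submodule.coe_smul, qf_smul, smul_add,
      RingHom.id_apply]

lemma comb_apply (φ : G →* (MvPolynomial (Fin n) ℂ ≃ₐ[ℂ] MvPolynomial (Fin n) ℂ))
    (hφX : ∀ g i, φ g (X i) ∈ Sp (X : Fin n → MvPolynomial (Fin n) ℂ) w (w i))
    (p : symInv (mat φ hφX) × (rep φ X w hφX 2).invariants) :
    comb φ hφX p = qf w (p.1 : Matrix (I1 w) (I1 w) ℂ) +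
      ((p.2 : Sp X w 2) : MvPolynomial (Fin n) ℂ) := rfl

lemma coeff_sp_two {u : MvPolynomial (Fin n) ℂ}
    (hu : u ∈ Sp (X : Fin n → MvPolynomial (Fin n) ℂ) w 2) (a b : Fin n) :
    coeff (Finsupp.single a 1 + Finsupp.single b 1) u = 0 := by
  classical
  refine Submodule.span_induction
    (p := fun u _ => coeff (Finsupp.single a 1 + Finsupp.single b 1) u = 0) ?_ ?_ ?_ ?_ hu
  · rintro _ ⟨i, _, rfl⟩
    rw [coeff_X, if_neg]
    intro h
    have := congrArg (fun s : Fin n →₀ ℕ => s.degree) h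
    simp [Finsupp.degree_single] at this
  · simp
  · intro x y _ _ hx hy; rw [coeff_add, hx, hy, add_zero]
  · intro r x _ hx; rw [coeff_smul, hx, smul_zero]

lemma comb_injective (φ : G →* (MvPolynomial (Fin n) ℂ ≃ₐ[ℂ] MvPolynomial (Fin n) ℂ))
    (hφX : ∀ g i, φ g (X i) ∈ Sp (X : Fin n → MvPolynomial (Fin n) ℂ) w (w i)) :
    Function.Injective (comb φ hφX) := by
  rw [injective_iff_map_eq_zero]
  rintro ⟨⟨M, hM1, hM2⟩, ⟨u, hu⟩⟩ h
  rw [comb_apply] at h
  change qf w M + (u : MvPolynomial (Fin n) ℂ) = 0 at h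
  have hM : M = 0 := by
    ext a b
    obtain ⟨e, he, h1⟩ := coeff_qf M hM1 a b
    have h2 := congrArg (coeff (Finsupp.single (a : Fin n) 1 + Finsupp.single (b : Fin n) 1)) h
    rw [coeff_add, h1, coeff_sp_two u.2, add_zero, coeff_zero] at h2
    simpa [he] using h2
  subst hM
  have hu0 : (u : MvPolynomial (Fin n) ℂ) = 0 := by
    have h3 : qf w (0 : Matrix (I1 w) (I1 w) ℂ) = 0 := by simp [qf]
    rw [h3, zero_add] at h
    exact h
  have hu1 : u = 0 := Subtype.ext hu0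
  subst hu1
  rfl

lemma dim_aux {H : Type} [Group H] {A V C W : Type*} [AddCommGroup A] [AddCommGroup V]
    [AddCommGroup C] [AddCommGroup W] [Module ℂ A] [Module ℂ V] [Module ℂ C] [Module ℂ W]
    [FiniteDimensional ℂ A] [FiniteDimensional ℂ V] [FiniteDimensional ℂ C]
    [FiniteDimensional ℂ W] (ρ : Representation ℂ H V) (σ : Representation ℂ H W)
    (Θ : (A × ρ.invariants) →ₗ[ℂ] C)
    (Ψ : LinearMap.ker Θ →ₗ[ℂ] σ.invariants) (hΨ : Function.Injective Ψ) :
    Module.finrank ℂ A + Module.finrank ℂ ρ.invariants ≤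
      Module.finrank ℂ C + Module.finrank ℂ σ.invariants := by
  have h1 := LinearMap.finrank_le_finrank_of_injective hΨ
  have h2 := LinearMap.finrank_range_add_finrank_ker Θ
  have h3 := Submodule.finrank_le (LinearMap.range Θ)
  rw [Module.finrank_prod] at h2
  omega

/-- the dimension count -/
theorem two_count {c : ℕ} (hw : ∀ i, 0 < w i)
    (f : Fin c → MvPolynomial (Fin n) ℂ) (δ : Fin c → ℕ) (hδ : ∀ j, 2 ≤ δ j)
    (hf : ∀ j, IsWeightedHomogeneous w (f j) (δ j))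
    (φ : G →* (MvPolynomial (Fin n) ℂ ≃ₐ[ℂ] MvPolynomial (Fin n) ℂ))
    (hφX : ∀ g i, φ g (X i) ∈ Sp (X : Fin n → MvPolynomial (Fin n) ℂ) w (w i))
    (hφf : ∀ g j, φ g (f j) ∈ Sp f δ (δ j)) :
    Module.finrank ℂ (symInv (mat φ hφX)) + Module.finrank ℂ (rep φ X w hφX 2).invariants ≤
      Module.finrank ℂ (invPart w f φ 2) + Module.finrank ℂ (rep φ f δ hφf 2).invariants := by
  classical
  let π : MvPolynomial (Fin n) ℂ →ₗ[ℂ] (MvPolynomial (Fin n) ℂ ⧸ Ideal.span (Set.range f)) :=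
    (Ideal.Quotient.mkₐ ℂ (Ideal.span (Set.range f))).toLinearMap
  have _ : FiniteDimensional ℂ (weightedHomogeneousSubmodule ℂ w 2) := finite_homog hw 2
  have hfinI : FiniteDimensional ℂ (invPart w f φ 2) := by
    have h3 : invPart w f φ 2 ≤ Submodule.map π (weightedHomogeneousSubmodule ℂ w 2) := by
      rintro _ ⟨p, hp, rfl, _⟩
      exact ⟨p, (mem_weightedHomogeneousSubmodule _ _ _ _).mpr hp, rfl⟩
    exact Submodule.finiteDimensional_of_le h3
  have hUfin : FiniteDimensional ℂ (Sp (X : Fin n → MvPolynomial (Fin n) ℂ) w 2) :=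
    FiniteDimensional.span_of_finite ℂ (Set.toFinite _)
  have hFfin : FiniteDimensional ℂ (Sp f δ 2) :=
    FiniteDimensional.span_of_finite ℂ (Set.toFinite _)
  have hhom : ∀ p, IsWeightedHomogeneous w (comb φ hφX p) 2 := by
    rintro ⟨⟨M, hM1, hM2⟩, ⟨u, hu⟩⟩
    rw [comb_apply]
    refine (qf_hom M).add ?_
    have h1 : Sp (X : Fin n → MvPolynomial (Fin n) ℂ) w 2 ≤ weightedHomogeneousSubmodule ℂ w 2 := by
      apply Submodule.span_le.mpr
      rintro _ ⟨i, hi, rfl⟩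
      rw [SetLike.mem_coe, mem_weightedHomogeneousSubmodule]
      have := isWeightedHomogeneous_X ℂ w i
      rw [show w i = 2 from hi] at this
      exact this
    exact (mem_weightedHomogeneousSubmodule _ _ _ _).mp (h1 u.2)
  have hinv : ∀ p g, φ g (comb φ hφX p) = comb φ hφX p := by
    rintro ⟨⟨M, hM1, hM2⟩, ⟨u, hu⟩⟩ g
    rw [comb_apply, map_add]
    congr 1
    · rw [phi_qf φ hφX g, hM2 g]
    · have h1 := congrArg Subtype.val (hu g)
      rw [rep_apply] at h1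
      exact h1
  let Θ : (symInv (mat φ hφX) × (rep φ X w hφX 2).invariants) →ₗ[ℂ] invPart w f φ 2 :=
    LinearMap.codRestrict _ (π.comp (comb φ hφX)) (fun p =>
      ⟨comb φ hφX p, hhom p, rfl, fun g => by rw [hinv p g]; rfl⟩)
  have hker : ∀ p ∈ LinearMap.ker Θ, comb φ hφX p ∈ Sp f δ 2 := by
    intro p hp
    have h1 : π (comb φ hφX p) = 0 := congrArg Subtype.val (LinearMap.mem_ker.mp hp)
    exact mem_sp_two hw f δ hδ hf (hhom p) (Ideal.Quotient.eq_zero_iff_mem.mp h1)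
  let Ψ : LinearMap.ker Θ →ₗ[ℂ] (rep φ f δ hφf 2).invariants :=
    { toFun := fun p => ⟨⟨comb φ hφX p, hker p p.2⟩, fun g => by
        apply Subtype.ext
        rw [rep_apply]
        exact hinv p g⟩
      map_add' := fun p q => by
        apply Subtype.ext
        apply Subtype.ext
        exact map_add (comb φ hφX) _ _
      map_smul' := fun a p => by
        apply Subtype.ext
        apply Subtype.ext
        exact map_smul (comb φ hφX) _ _ }
  have hΨ : Function.Injective Ψ := by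
    intro p q h
    have h1 := congrArg (fun x : (rep φ f δ hφf 2).invariants =>
      ((x : Sp f δ 2) : MvPolynomial (Fin n) ℂ)) h
    exact Subtype.ext (comb_injective φ hφX h1)
  exact dim_aux (rep φ X w hφX 2) (rep φ f δ hφf 2) Θ Ψ hΨ

end

end Pool.Agent.T9h40.Kaw
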